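import Pool.Agent.Run7.h184.Final

set_option autoImplicit false

namespace Pool.Agent.Results.MP_9059b8_an.BoundedArgument

/-- Off the origin, the boundary of `E` is a `C²` hypersurface and `E` lies locally on one side
of it. -/
def SmoothBoundary {n : ℕ} (E : Set (EuclideanSpace ℝ (Fin n))) : Prop :=
  ∀ p ∈ frontier E, p ≠ 0 → ∃ U ∈ nhds p, ∃ f : EuclideanSpace ℝ (Fin n) → ℝ,
    ContDiff ℝ 2 f ∧ fderiv ℝ f p ≠ 0 ∧ ∀ x ∈ U, (x ∈ E ↔ 0 < f x)

/-- Off the origin, `u` is `C²` up to the boundary of `E` from inside `E`, and its gradient has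
norm one on the boundary. -/
def UnitGradient {n : ℕ} (E : Set (EuclideanSpace ℝ (Fin n)))
    (u : EuclideanSpace ℝ (Fin n) → ℝ) : Prop :=
  ∀ p ∈ frontier E, p ≠ 0 → ∃ U ∈ nhds p, ∃ g : EuclideanSpace ℝ (Fin n) → ℝ,
    ContDiff ℝ 2 g ∧ (∀ x ∈ U ∩ E, g x = u x) ∧ ‖fderiv ℝ g p‖ = 1

/-- `u` is `C²` and harmonic in `E`. -/
def HarmonicIn {n : ℕ} (E : Set (EuclideanSpace ℝ (Fin n)))
    (u : EuclideanSpace ℝ (Fin n) → ℝ) : Prop :=
  ContDiffOn ℝ 2 u E ∧ ∀ x ∈ E, ∑ i : Fin n, fderiv ℝ (fderiv ℝ u) x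
    (EuclideanSpace.single i (1 : ℝ)) (EuclideanSpace.single i (1 : ℝ)) = 0

/-- Degree-one homogeneous solutions of the one-phase problem (stable or not) with positivity set
`E`. -/
structure Solution {n : ℕ} (E : Set (EuclideanSpace ℝ (Fin n)))
    (u : EuclideanSpace ℝ (Fin n) → ℝ) : Prop where
  isOpen : IsOpen E
  nonempty : E.Nonempty
  boundary : SmoothBoundary E
  continuous : Continuous u
  homogeneous : ∀ t : ℝ, 0 < t → ∀ x, u (t • x) = t * u x
  pos : ∀ x ∈ E, 0 < u x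
  zero : ∀ x ∉ E, u x = 0
  harmonic : HarmonicIn E u
  gradient : UnitGradient E u

/-- The set of points of `E` where `∂_a u + i ∂_b u` does not vanish. -/
def Nonzero {n : ℕ} (E : Set (EuclideanSpace ℝ (Fin n))) (u : EuclideanSpace ℝ (Fin n) → ℝ)
    (a b : EuclideanSpace ℝ (Fin n)) : Set (EuclideanSpace ℝ (Fin n)) :=
  {x | x ∈ E ∧ ¬ (fderiv ℝ u x a = 0 ∧ fderiv ℝ u x b = 0)}

/-- `∂_a u + i ∂_b u` has a bounded continuous argument on the set of points of `E` where it does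
not vanish. -/
def HasBoundedArgument {n : ℕ} (E : Set (EuclideanSpace ℝ (Fin n)))
    (u : EuclideanSpace ℝ (Fin n) → ℝ) (a b : EuclideanSpace ℝ (Fin n)) : Prop :=
  ∃ θ : EuclideanSpace ℝ (Fin n) → ℝ, ContinuousOn θ (Nonzero E u a b) ∧
    (∃ C : ℝ, ∀ x ∈ Nonzero E u a b, |θ x| ≤ C) ∧
    ∀ x ∈ Nonzero E u a b,
      fderiv ℝ u x a = √(fderiv ℝ u x a ^ 2 + fderiv ℝ u x b ^ 2) * Real.cos (θ x) ∧
      fderiv ℝ u x b = √(fderiv ℝ u x a ^ 2 + fderiv ℝ u x b ^ 2) * Real.sin (θ x)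

/-- Let `u` be a degree-one homogeneous solution of the one-phase problem in `ℝⁿ` (any `n`;
stability is not assumed). If for two linearly independent vectors `a`, `b` the function
`∂_a u + i ∂_b u` admits a bounded continuous argument on the set of points of `E` where it
does not vanish, then `u` is one-dimensional. -/
theorem result (n : ℕ) (E : Set (EuclideanSpace ℝ (Fin n)))
    (u : EuclideanSpace ℝ (Fin n) → ℝ) (hu : Solution E u)
    (a b : EuclideanSpace ℝ (Fin n)) (hab : LinearIndependent ℝ ![a, b])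
    (hθ : HasBoundedArgument E u a b) :
    ∃ v : EuclideanSpace ℝ (Fin n), ‖v‖ = 1 ∧ ∀ x, u x = max (inner ℝ x v) 0 := by
  have S : Run7.h184.Sol E u :=
    ⟨hu.isOpen, hu.boundary, hu.continuous, hu.homogeneous, hu.pos, hu.zero, hu.harmonic.1,
      hu.harmonic.2, hu.gradient⟩
  obtain ⟨θ, hθc, ⟨C, hC⟩, hθ⟩ := hθ
  have key : ∀ x ∈ E, Run7.h184.Nf u a b x ≠ 0 → x ∈ Nonzero E u a b := by
    rintro x hxE hx
    refine ⟨hxE, ?_⟩
    rintro ⟨h1, h2⟩
    apply hx
    unfold Run7.h184.Nf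
    rw [h1, h2]
    norm_num
  have A : Run7.h184.Arg E u a b θ C := by
    refine ⟨hθc.mono ?_, fun x hx hN => hC x (key x hx hN), fun x hx hN => ?_,
      fun x hx hN => ?_⟩
    · rintro x ⟨hx, hN⟩
      exact key x hx hN
    · exact (hθ x (key x hx hN)).1
    · exact (hθ x (key x hx hN)).2
  exact S.rigid hu.nonempty hab A

end Pool.Agent.Results.MP_9059b8_an.BoundedArgument
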